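import Pool.Agent.H55.QO.Targets

/-! # The real form of an encoding, size = dimension (helper55) -/

set_option autoImplicit false

namespace Pool.Agent.H55.QO

open Matrix Finset
open Pool.Agent.H1.LP (Clause viol)
open Pool.Agent.H55.QE (rfd rfd_psd rfd_tr)
open scoped ComplexOrder

theorem Encoding.one_le_size {n : ℕ} (E : Encoding n) : 1 ≤ E.size := by
  obtain ⟨x, hx⟩ := E.ne
  have h1 := E.tr x hx
  have h2 : ∃ i, E.ord i ≠ 0 := by
    by_contra hcon
    push Not at hcon
    have h3 : ∑ i, (E.st x i).trace = 0 := by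
      apply sum_eq_zero
      intro i _
      have : IsEmpty (Fin (E.ord i)) := by
        rw [hcon i]
        exact Fin.isEmpty
      exact Matrix.trace_eq_zero_of_isEmpty _
    rw [h3] at h1
    exact zero_ne_one h1
  obtain ⟨i, hi⟩ := h2
  have h4 : (1 : ℝ) ≤ (E.ord i : ℝ) := by
    have : 1 ≤ E.ord i := Nat.one_le_iff_ne_zero.2 hi
    exact_mod_cast this
  exact h4.trans (single_le_sum (f := fun i => (E.ord i : ℝ)) (fun i _ => Nat.cast_nonneg _)
    (mem_univ i))

/-- the real form of a certificate -/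
theorem cert_real {n m : ℕ} (E : Encoding n) (phi : Fin m → Clause n) (de er : ℝ)
    (h : E.Certifies phi de er) :
    ∃ L : (i : Fin E.nb) → Matrix (Fin (E.ord i + E.ord i)) (Fin (E.ord i + E.ord i)) ℝ,
      (∀ i, (L i).PosSemidef) ∧ ∀ x ∈ E.cell,
        |∑ j, E.en (phi j) x - de - ∑ i, (L i * rfd (E.st x i)).trace| ≤ er := by
  obtain ⟨H, h1, h2⟩ := h
  refine ⟨fun i => (1 / 2 : ℝ) • rfd (H i - (de : ℂ) • 1), fun i => ?_, fun x hx => ?_⟩
  · exact (rfd_psd (h2 i)).smul (by norm_num)
  · have h3 : ∀ i, (((1 / 2 : ℝ) • rfd (H i - (de : ℂ) • (1 : Matrix _ _ ℂ))) *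
        rfd (E.st x i)).trace = ((H i * E.st x i).trace - (de : ℂ) * (E.st x i).trace).re := by
      intro i
      rw [Matrix.smul_mul, trace_smul, rfd_tr, Matrix.sub_mul, trace_sub, Matrix.smul_mul,
        Matrix.one_mul, trace_smul]
      simp
    rw [sum_congr rfl fun i _ => h3 i, ← Complex.re_sum, sum_sub_distrib, ← mul_sum, E.tr x hx]
    have h4 := h1 x hx
    have h5 := (Complex.abs_re_le_norm _).trans h4
    refine le_trans (le_of_eq ?_) h5
    rw [← abs_neg]
    congr 1
    simp only [Complex.sub_re, Complex.ofReal_re, mul_one]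
    ring

theorem CertifiedBy.mono {n M m : ℕ} {E : Fin M → Encoding n} {phi : Fin m → Clause n}
    {de er S S' : ℝ} (h : CertifiedBy E phi de er S) (hS : S ≤ S') :
    CertifiedBy E phi de er S' := by
  obtain ⟨J, h1, h2, h3, h4⟩ := h
  exact ⟨J, h1, h2, h3, h4.trans hS⟩

theorem family_card {n M : ℕ} (E : Fin M → Encoding n) : (M : ℝ) ≤ ∑ j, (E j).size := by
  have h : ∑ _j : Fin M, (1 : ℝ) ≤ ∑ j, (E j).size := sum_le_sum fun j _ => (E j).one_le_size
  rw [sum_const, card_univ, Fintype.card_fin, nsmul_eq_mul, mul_one] at h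
  exact h

/-- the order of the real form of an encoding -/
theorem ord_real {n : ℕ} (E : Encoding n) :
    ∑ i, (((E.ord i + E.ord i : ℕ) : ℝ)) ≤ 2 * E.size := by
  unfold Encoding.size
  rw [mul_sum]
  refine sum_le_sum fun i _ => ?_
  push_cast
  linarith

/-- the size of the real form of an encoding, for the abstract inequality -/
theorem size_real {n : ℕ} (E : Encoding n) :
    ∑ i, (((E.ord i + E.ord i : ℕ) : ℝ)) + 1 ≤ 3 * E.size := by
  have h1 := E.one_le_size
  have h2 := ord_real E
  linarith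

end Pool.Agent.H55.QO
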