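import Pool.Agent.H55.QO.TargetsB
import Pool.Agent.H55.QO.RFD
import Pool.Agent.H91.SV.KCB
import Pool.Agent.H91.AV.CORE

/-! # Quantum relaxations, wide clauses, size = dimension: assembly of the core inequality
(helper55, after helper91) -/

set_option autoImplicit false

namespace Pool.Agent.H55.QO

open Finset Matrix
open Pool.Agent.H1.LP (Clause viol Agree)
open Pool.Agent.H96.KX (prs)
open Pool.Agent.H91.AV (Bal S_BALH S_MAS)
open Pool.Agent.H91.SV (kc kc_nonneg S_CELB)
open Pool.Agent.H91.QO (NO S_ABSO)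
open Pool.Agent.H76.QE (Good T_FRQ)
open Pool.Agent.H55.QE (rfd rfd_psd)
open H43.PS (PosDeg av)

theorem pf_COREQ (hAB : S_ABSO) (hCE : S_CELB) (hBA : S_BALH) (hMA : S_MAS)
    (hNP : H96.KX.S_NPR) (hFR : T_FRQ) (hEN : Pool.Agent.H1.LP.S_ENC) : S_COREQ := by
  classical
  intro p N R k h K L n hp g θ hR hg hGood hple hBn
  obtain ⟨T, bad, D, hT, hbad, hfar, hDM, hPD, hD1, hmassb⟩ := hGood
  obtain ⟨b, hb⟩ : ∃ b, (K + 1) * (L + 1) = b := ⟨_, rfl⟩
  have hNO : NO R K L k = R * 2 ^ (b * k) := by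
    unfold NO
    rw [hb]
  simp only [hb] at hBn ⊢
  obtain ⟨asg, dec, cl, hda, hsat, hcard⟩ := hEN n N b hBn
  have hpn0 : 0 < p := (Fact.out : p.Prime).pos
  have hNZ : NeZero p := ⟨hpn0.ne'⟩
  have hp0 : (0 : ℝ) < p := by exact_mod_cast hpn0
  have hp1 : (1 : ℝ) ≤ p := by exact_mod_cast (Fact.out : p.Prime).one_lt.le
  have hR0 : (0 : ℝ) < R := by exact_mod_cast (by omega : 0 < R)
  -- the embedding of the block values
  obtain ⟨q0, hq0⟩ : ∃ q0 : ℕ, q0 = p ^ L := ⟨_, rfl⟩
  have hcV : Fintype.card (Fin q0) = p ^ L := by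
    rw [Fintype.card_fin, hq0]
  have hcU : Fintype.card (ZMod p × (Fin q0)) = p ^ (L + 1) := by
    rw [Fintype.card_prod, hcV, ZMod.card, pow_succ, mul_comm]
  obtain ⟨Hn, hHn⟩ : ∃ Hn, Fintype.card ((Fin q0) → ZMod p) = Hn := ⟨_, rfl⟩
  have hHn0 : 0 < Hn := by
    rw [← hHn]
    exact Fintype.card_pos
  obtain ⟨io⟩ : Nonempty ((ZMod p × (Fin q0)) ↪ (Fin b → Bool)) := by
    apply Function.Embedding.nonempty_of_card_le
    rw [hcU, Fintype.card_fun, Fintype.card_bool, Fintype.card_fin, ← hb, pow_mul]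
    exact Nat.pow_le_pow_left hple _
  set al : (Fin N → (Fin q0) → ZMod p) → Fin N → (Fin b → Bool) → ZMod p := fun a j q =>
    Function.extend io (Pool.Agent.H91.AV.hs p (Fin q0) (a j)) (fun _ => 0) q with hal
  have hal' : ∀ a j u, al a j (io u) = Pool.Agent.H91.AV.hs p (Fin q0) (a j) u := by
    intro a j u
    exact io.injective.extend_apply _ _ _
  have hform := fun a : Fin N → (Fin q0) → ZMod p =>
    hFR p N R b n T bad (al a) dec cl hbad hsat
  choose m phi hm hphi hsum hviol using hform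
  have hprs : (prs (b := b) T).card = R * 2 ^ (b * k) := hNP N R b k T hT
  have hvlow : ∀ a y, g * R ≤ (viol (phi a) y : ℝ) := by
    intro a y
    rw [hviol a y]
    exact hfar _
  have hvm : ∀ a y, viol (phi a) y ≤ m a := by
    intro a y
    unfold viol
    refine (card_le_univ _).trans ?_
    rw [Fintype.card_fin]
  have hm1 : ∀ a, 1 ≤ m a := by
    intro a
    have h1 := hvlow a (fun _ => false)
    have h2 : (0 : ℝ) < viol (phi a) (fun _ => false) := lt_of_lt_of_le (by positivity) h1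
    have h3 : 0 < viol (phi a) (fun _ => false) := by exact_mod_cast h2
    exact (Nat.succ_le_of_lt h3).trans (hvm a _)
  have hm2 : ∀ a, m a ≤ R * 2 ^ (b * k) := by
    intro a
    rw [← hprs]
    exact hm a
  obtain ⟨Yc, hYc⟩ : ∃ Yc, Fintype.card (Fin N → (Fin q0) → ZMod p) = Yc := ⟨_, rfl⟩
  have hYc' : Yc = Hn ^ N := by
    rw [← hYc, Fintype.card_fun (α := Fin N), hHn, Fintype.card_fin]
  let e : Fin Yc ≃ (Fin N → (Fin q0) → ZMod p) :=
    (Fintype.equivFinOfCardEq hYc).symm
  refine ⟨Yc, fun a => m (e a), fun a => phi (e a), ?_, ?_, ?_⟩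
  · rw [hYc']
    positivity
  · intro a
    refine ⟨hm1 _, by
      rw [hNO]
      exact hm2 _, ?_, ?_⟩
    · intro c
      obtain ⟨q, -, hq⟩ := hphi (e a) c
      show (phi (e a) c).card = b * k ∧ ((phi (e a) c).image Prod.fst).card = b * k
      rw [hq]
      have := hcard (T q.1) q.2
      rw [hT q.1] at this
      rw [mul_comm k] at this
      exact this
    · intro y
      have h5 : ((m (e a) : ℝ) / 2 ^ (b * k)) ≤ R := by
        rw [div_le_iff₀ (by positivity)]
        exact_mod_cast hm2 (e a)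
      exact (mul_le_mul_of_nonneg_left h5 hg.le).trans (hvlow (e a) y)
  -- the inequality
  intro M P A de er S0 W e0 hde her hth he0 he1 hpq hW hA hPW hA0
  set A' : Finset (Fin N → (Fin q0) → ZMod p) := A.map e.toEmbedding with hA'
  have hA'c : A'.card = A.card := card_map _
  have hA'm : ∀ a ∈ A', CertifiedBy P (phi a) de er S0 := by
    intro a ha
    obtain ⟨i, hi, rfl⟩ := mem_map.1 ha
    exact hA i hi
  -- the data of the abstract inequality
  let X := Fin N → ZMod p × (Fin q0)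
  let C := {q // q ∈ prs (b := b) T}
  let pt : X → (Fin n → Bool) := fun x => asg (fun j => io (x j))
  have hptd : ∀ x : X, dec (pt x) = fun j => io (x j) := fun x => hda _
  let inF : (Fin N → (Fin q0) → ZMod p) → C → Prop := fun a c =>
    bad c.1.1 (H1.LP.val (al a) c.1.2)
  let sat : C → X → Prop := fun c x => (cl (T c.1.1) c.1.2).Sat (pt x)
  have hBal : Bal (Pool.Agent.H91.AV.hs p (Fin q0)) := hBA p (Fin q0)
  have hq1 : 1 ≤ q0 := by
    rw [hq0]
    exact Nat.one_le_pow _ _ hpn0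
  have hXne : Nonempty X := by
    have : Nonempty (Fin q0) := ⟨⟨0, by omega⟩⟩
    infer_instance
  have hcX : ((Fintype.card X : ℕ) : ℝ) = ((p : ℝ) ^ (L + 1)) ^ N := by
    show ((Fintype.card (Fin N → ZMod p × (Fin q0)) : ℕ) : ℝ) = _
    rw [Fintype.card_fun (α := Fin N), Fintype.card_fin, hcU]
    push_cast
    rfl
  -- sums over the points
  have hmas : ∀ (F : (Fin N → ZMod p) → ℝ) (a : Fin N → (Fin q0) → ZMod p),
      (∑ x : X, F (fun i => Pool.Agent.H91.AV.hs p (Fin q0) (a i) (x i))) * (p : ℝ) ^ N =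
        Fintype.card X * ∑ z, F z := by
    intro F a
    have h1 := hMA ((Fin q0) → ZMod p) (ZMod p × (Fin q0)) (ZMod p)
      (Pool.Agent.H91.AV.hs p (Fin q0)) hBal N F a
    rw [ZMod.card] at h1
    rw [h1]
    congr 1
    show _ = ((Fintype.card (Fin N → ZMod p × (Fin q0)) : ℕ) : ℝ)
    rw [Fintype.card_fun (α := Fin N), Fintype.card_fin]
    push_cast
    rfl
  have hpN0 : (p : ℝ) ^ N ≠ 0 := by positivity
  have hcZ : ((Fintype.card (Fin N → ZMod p) : ℕ) : ℝ) = (p : ℝ) ^ N := by
    rw [Fintype.card_fun, ZMod.card, Fintype.card_fin]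
    push_cast
    rfl
  have hDs : ∑ z, D z = (p : ℝ) ^ N := by
    unfold av at hD1
    rw [hcZ] at hD1
    field_simp at hD1
    exact hD1
  have hmass : ∀ a : Fin N → (Fin q0) → ZMod p,
      ∑ x : X, D (fun i => Pool.Agent.H91.AV.hs p (Fin q0) (a i) (x i)) =
        Fintype.card X := by
    intro a
    have h1 := hmas D a
    rw [hDs] at h1
    exact mul_right_cancel₀ hpN0 h1
  -- the mass of the violated clauses
  have hV : ∑ z, D z * ((univ.filter (fun i => bad i z)).card : ℝ) ≤ θ * R * (p : ℝ) ^ N := by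
    have h1 : ∀ z, D z * ((univ.filter (fun i => bad i z)).card : ℝ) =
        ∑ i, (if bad i z then D z else 0) := by
      intro z
      rw [← Finset.sum_filter, Finset.sum_const, nsmul_eq_mul, mul_comm]
    rw [sum_congr rfl fun z _ => h1 z, sum_comm]
    have h2 : ∀ i, ∑ z, (if bad i z then D z else 0) ≤ θ * (p : ℝ) ^ N := by
      intro i
      have h3 := (hmassb i).2
      unfold av at h3
      rw [hcZ, inv_mul_le_iff₀ (by positivity)] at h3
      linarith
    refine (sum_le_sum fun i _ => h2 i).trans (le_of_eq ?_)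
    rw [sum_const, card_univ, Fintype.card_fin, nsmul_eq_mul]
    ring
  have hFv : ∀ (a : Fin N → (Fin q0) → ZMod p) (x : X),
      (((univ.filter (inF a)).filter (fun c => ¬ sat c x)).card : ℝ) =
        ((univ.filter (fun i => bad i
          (fun j => Pool.Agent.H91.AV.hs p (Fin q0) (a j) (x j)))).card : ℝ) := by
    intro a x
    have h1 := hsum a (fun Cl => if ¬ Cl.Sat (pt x) then (1 : ℝ) else 0)
    have h2 : ∑ c, (if ¬ (phi a c).Sat (pt x) then (1 : ℝ) else 0) = (viol (phi a) (pt x) : ℝ) := by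
      unfold viol
      rw [Finset.sum_boole]
    have h3 : ∑ q ∈ (prs (b := b) T).filter (fun q => bad q.1 (H1.LP.val (al a) q.2)),
        (if ¬ (cl (T q.1) q.2).Sat (pt x) then (1 : ℝ) else 0) =
        (((univ.filter (inF a)).filter (fun c => ¬ sat c x)).card : ℝ) := by
      rw [Finset.sum_filter, ← Finset.sum_coe_sort (prs (b := b) T), Finset.filter_filter,
        Finset.card_filter, Nat.cast_sum]
      refine sum_congr rfl fun c _ => ?_
      show (if bad c.1.1 (H1.LP.val (al a) c.1.2) then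
        (if ¬ (cl (T c.1.1) c.1.2).Sat (pt x) then (1 : ℝ) else 0) else 0) = _
      by_cases h4 : inF a c
      · by_cases h5 : sat c x
        · have h6 : (cl (T c.1.1) c.1.2).Sat (pt x) := h5
          simp [h5, h6]
        · have h6 : ¬ (cl (T c.1.1) c.1.2).Sat (pt x) := h5
          have h7 : bad c.1.1 (H1.LP.val (al a) c.1.2) := h4
          simp [h4, h5, h6, h7]
      · have h7 : ¬ bad c.1.1 (H1.LP.val (al a) c.1.2) := h4
        simp [h4, h7]
    rw [← h3, ← h1, h2, hviol a (pt x)]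
    have h8 : H1.LP.val (al a) (dec (pt x)) =
        fun j => Pool.Agent.H91.AV.hs p (Fin q0) (a j) (x j) := by
      funext j
      show al a j (dec (pt x) j) = _
      rw [hptd x, hal']
    rw [h8]
  obtain ⟨θc, hθc⟩ : ∃ θc : ℝ, θc = (A.card : ℝ) / (Yc * (3 * W)) := ⟨_, rfl⟩
  have hYc0 : (0 : ℝ) < Yc := by
    rw [hYc']
    have : (0 : ℝ) < Hn := by exact_mod_cast hHn0
    push_cast
    positivity
  have hAc0 : (0 : ℝ) < A.card := by exact_mod_cast hA0
  have hθ0 : 0 < θc := by
    rw [hθc]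
    positivity
  obtain ⟨kb, hkb⟩ : ∃ kb : ℝ, kb = kc p q0 N h e0 (3 * W) θc := ⟨_, rfl⟩
  have hkb0 : 0 ≤ kb := by
    rw [hkb]
    exact kc_nonneg _ _ _ _ _ _ _ he0 (by positivity) hθ0
  have hMx1 : (1 : ℝ) ≤ (p : ℝ) ^ N := one_le_pow₀ hp1
  have hres : ∀ a ∈ A', ∃ J : Finset (Fin M),
      (∀ j ∈ J, ∀ j' ∈ J, j ≠ j' → Disjoint (P j).cell (P j').cell) ∧
      (∀ x, ∃ j ∈ J, x ∈ (P j).cell) ∧ (∀ j ∈ J, (P j).Certifies (phi a) de er) ∧
      ∑ j ∈ J, (P j).size ≤ S0 := hA'm
  choose! J hJ1 hJ2 hJ3 hJ4 using hres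
  have her' : er ≤ de / (4 * (p : ℝ) ^ N) := by
    rw [le_div_iff₀ (by positivity)]
    linarith
  have hlp : ∀ (a : Fin N → (Fin q0) → ZMod p) (j : Fin M),
      ∃ Lm : (i : Fin (P j).nb) → Matrix (Fin ((P j).ord i + (P j).ord i))
        (Fin ((P j).ord i + (P j).ord i)) ℝ,
      (∀ i, (Lm i).PosSemidef) ∧ (a ∈ A' → j ∈ J a → ∀ x ∈ (P j).cell,
        |∑ i, (P j).en (phi a i) x - de -
          (0 + ∑ i, (Lm i * rfd ((P j).st x i)).trace)| ≤ de / (4 * (p : ℝ) ^ N)) := by
    intro a j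
    by_cases h : a ∈ A' ∧ j ∈ J a
    · obtain ⟨Lm, h1, h2⟩ := cert_real (P j) (phi a) de er (hJ3 a h.1 j h.2)
      refine ⟨Lm, h1, fun _ _ x hx => ?_⟩
      rw [zero_add]
      exact (h2 x hx).trans her'
    · refine ⟨fun _ => 0, fun _ => Matrix.PosSemidef.zero, ?_⟩
      intro ha hj x hx
      exact absurd ⟨ha, hj⟩ h
  choose Lm hlm hl2 using hlp
  have hcYt : ((Fintype.card (Fin N → (Fin q0) → ZMod p) : ℕ) : ℝ) = Yc := by rw [hYc]
  have key := hAB X (Fin N → (Fin q0) → ZMod p) C
    (fun a x => D (fun i => Pool.Agent.H91.AV.hs p (Fin q0) (a i) (x i))) kb ((p : ℝ) ^ N)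
    (θc * Yc) (3 * W) (θ * R) (fun a => univ.filter (inF a)) sat hkb0 hMx1 (by positivity)
    (fun a x => hDM _) hmass
    (by
      intro a
      have h1 : ∀ x : X, D (fun i => Pool.Agent.H91.AV.hs p (Fin q0) (a i) (x i)) *
          (((univ.filter (inF a)).filter (fun c => ¬ sat c x)).card : ℝ) =
          (fun z => D z * ((univ.filter (fun i => bad i z)).card : ℝ))
            (fun i => Pool.Agent.H91.AV.hs p (Fin q0) (a i) (x i)) := by
        intro x
        rw [hFv a x]
      rw [sum_congr rfl fun x _ => h1 x]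
      have h2 := hmas (fun z => D z * ((univ.filter (fun i => bad i z)).card : ℝ)) a
      have h3 : (∑ x : X, (fun z => D z * ((univ.filter (fun i => bad i z)).card : ℝ))
          (fun i => Pool.Agent.H91.AV.hs p (Fin q0) (a i) (x i))) * (p : ℝ) ^ N ≤
          (θ * R * Fintype.card X) * (p : ℝ) ^ N := by
        rw [h2]
        calc (Fintype.card X : ℝ) * ∑ z, D z * ((univ.filter (fun i => bad i z)).card : ℝ) ≤
            (Fintype.card X : ℝ) * (θ * R * (p : ℝ) ^ N) :=
              mul_le_mul_of_nonneg_left hV (Nat.cast_nonneg _)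
          _ = _ := by ring
      exact le_of_mul_le_mul_right h3 (by positivity))
    (by
      intro q f g' hqW hf hg' A1 X1 m1 hm1 htr
      have h1 := hCE p q0 N h e0 (3 * W) θc hq1 he0 he1 (by rw [hq0]; exact hpq)
        (by positivity) hθ0 D
        ((p : ℝ) ^ N) hDM hPD q f g' hqW hf hg' A1 X1 m1 hm1 htr
      rw [hcYt, ← hkb] at h1
      exact h1)
    M A' J (fun j => {x : X | pt x ∈ (P j).cell}) (fun j => (P j).nb)
    (fun j i => (P j).ord i + (P j).ord i) (fun _ _ => univ)
    (fun j x i => rfd ((P j).st (pt x) i)) Lm (fun _ _ => 0)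
    (fun j c x => (P j).en (cl (T c.1.1) c.1.2) (pt x)) de (3 * S0) hde hth
    (by
      intro a ha x
      obtain ⟨j, hj, hx⟩ := hJ2 a ha (pt x)
      exact ⟨j, hj, hx⟩)
    (by
      intro a ha j hj j' hj' hne
      rw [Set.disjoint_left]
      intro x hx hx'
      exact (Finset.disjoint_left.1 (hJ1 a ha j hj j' hj' hne)) hx hx')
    (by
      intro j x hx i
      exact rfd_psd ((P j).psd (pt x) hx i))
    (fun a j i => hlm a j i)
    (fun a j i hi => absurd (mem_univ i) hi)
    (fun a j => le_rfl)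
    (by
      intro j c x hx
      exact (le_abs_self _).trans ((P j).bdd (pt x) hx _))
    (by
      intro j c x hx hs
      exact (P j).sound (pt x) hx _ hs)
    (by
      intro a ha j hj x hx
      have h1 := hl2 a j ha hj (pt x) hx
      rw [hsum a (fun Cl => (P j).en Cl (pt x))] at h1
      have h2 : ∑ c ∈ univ.filter (inF a), (P j).en (cl (T c.1.1) c.1.2) (pt x) =
          ∑ q ∈ (prs (b := b) T).filter (fun q => bad q.1 (H1.LP.val (al a) q.2)),
            (P j).en (cl (T q.1) q.2) (pt x) := by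
        rw [Finset.sum_filter, Finset.sum_filter]
        exact Finset.sum_coe_sort (prs (b := b) T)
          (fun q : Fin R × (Fin N → Fin b → Bool)
          => if bad q.1 (H1.LP.val (al a) q.2) then
            (P j).en (cl (T q.1) q.2) (pt x) else 0)
      rw [h2]
      exact h1)
    (by
      intro a ha
      have h1 := hJ4 a ha
      have h2 : ∑ j ∈ J a, (∑ i, (((P j).ord i + (P j).ord i : ℕ) : ℝ) + 1) ≤
          ∑ j ∈ J a, 3 * (P j).size := sum_le_sum fun j _ => size_real (P j)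
      rw [← mul_sum] at h2
      linarith)
    (by
      have h2 : ∑ j, (∑ i, (((P j).ord i + (P j).ord i : ℕ) : ℝ) + 1) ≤
          ∑ j, 3 * (P j).size := sum_le_sum fun j _ => size_real (P j)
      rw [← mul_sum] at h2
      linarith)
    (by
      rw [hA'c, hθc]
      apply le_of_eq
      field_simp)
    (by
      rw [hA'c]
      exact hA0)
  -- cleaning up
  have hcC : ((Fintype.card C : ℕ) : ℝ) = NO R K L k := by
    show ((Fintype.card {q // q ∈ prs (b := b) T} : ℕ) : ℝ) = _
    rw [Fintype.card_coe, hprs, hNO]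
  rw [hcC, hkb, hθc, hq0] at key
  exact key

end Pool.Agent.H55.QO
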