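import Pool.Agent.H55.QO.TargetsB
import Pool.Agent.H55.QO.RFD

/-! # Quantum relaxations, wide clauses: choice of the parameters (helper55) -/

set_option autoImplicit false

namespace Pool.Agent.H55.QO

open Finset Matrix
open Pool.Agent.H1.LP (Clause viol)
open Pool.Agent.H91.SV (kc)
open Pool.Agent.H91.QO (NO S_PARMO)
open Pool.Agent.H76.QE (Good T_GOO)

theorem rp_le' {a b : ℝ} (h : a ≤ b) : (2 : ℝ) ^ a ≤ (2 : ℝ) ^ b :=
  Real.rpow_le_rpow_of_exponent_le (by norm_num) h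

theorem three_le {a b : ℝ} (h : a + 2 ≤ b) : (2 : ℝ) ^ a ≤ (2 : ℝ) ^ b / 3 := by
  have h1 : (2 : ℝ) ^ (a + 2) ≤ (2 : ℝ) ^ b := rp_le' h
  have h2 : (2 : ℝ) ^ (a + 2) = (2 : ℝ) ^ a * 4 := by
    rw [Real.rpow_add (by norm_num)]
    norm_num
  rw [h2] at h1
  have h3 : (0 : ℝ) < (2 : ℝ) ^ a := Real.rpow_pos_of_pos (by norm_num) _
  linarith

/-- the error is small: `p ^ N ≤ 2 ^ (n / 3)` -/
theorem err_small' (K L n N p : ℕ) (γ : ℝ) (hL : 2 ≤ L) (hBn : N * ((K + 1) * (L + 1)) ≤ n)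
    (hp2 : p ≤ 2 ^ (K + 1)) (hγ : γ ≤ 1 / 4) (hn : 8 ≤ n) :
    4 * (p : ℝ) ^ N * (2 : ℝ) ^ (-(n : ℝ)) ≤ (2 : ℝ) ^ (-(γ * n)) := by
  have hn' : (8 : ℝ) ≤ (n : ℝ) := by exact_mod_cast hn
  have h1 : (p : ℝ) ^ N ≤ (2 : ℝ) ^ ((n : ℝ) / 3) := by
    have h2 : (p : ℝ) ≤ (2 : ℝ) ^ (K + 1) := by exact_mod_cast hp2
    have h3 : (p : ℝ) ^ N ≤ ((2 : ℝ) ^ (K + 1)) ^ N := pow_le_pow_left₀ (Nat.cast_nonneg _) h2 N
    refine h3.trans ?_
    rw [← pow_mul, ← Real.rpow_natCast]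
    apply rp_le'
    have h4 : (K + 1) * N * 3 ≤ n := by
      refine le_trans ?_ hBn
      calc (K + 1) * N * 3 = N * ((K + 1) * 3) := by ring
        _ ≤ N * ((K + 1) * (L + 1)) := by gcongr; omega
    have h5 : (((K + 1) * N : ℕ) : ℝ) * 3 ≤ (n : ℝ) := by exact_mod_cast h4
    linarith
  have h6 : (4 : ℝ) = (2 : ℝ) ^ (2 : ℝ) := by norm_num
  calc 4 * (p : ℝ) ^ N * (2 : ℝ) ^ (-(n : ℝ)) ≤
        4 * (2 : ℝ) ^ ((n : ℝ) / 3) * (2 : ℝ) ^ (-(n : ℝ)) := by gcongr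
    _ = (2 : ℝ) ^ ((2 : ℝ) + (n : ℝ) / 3 + -(n : ℝ)) := by
        rw [Real.rpow_add (by norm_num), Real.rpow_add (by norm_num), ← h6]
    _ ≤ (2 : ℝ) ^ (-(γ * n)) := by
        apply rp_le'
        nlinarith

theorem pf_FINQ (hC : S_COREQ) (hG : T_GOO) (hP : S_PARMO) : StatementQW := by
  classical
  intro C ε hε
  obtain ⟨E, hE, hEε, hpar⟩ := hP (C + 1) (ε / 2) (by linarith)
  obtain ⟨K, w, ρ, k, p, hp, hEK, hw, hρ, hk, hp1, hp2, hgood⟩ := hG E hE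
  obtain ⟨L, Kc, γ, e0, hL, he0, he1, hpe, hγ, n₀, hn⟩ := hpar K w ρ k p hEK hw hρ hk hp1 hp2
  obtain ⟨N1, hN1⟩ := exists_nat_ge (4 / ε)
  refine ⟨(K + 1) * (L + 1) * k, Kc, min γ (1 / 4), lt_min hγ (by norm_num), n₀ + N1 + 8,
    fun n hn0 => ?_⟩
  obtain ⟨u, hku, hBn, hKn, hth, hfin⟩ := hn n (by omega)
  have hnR : (0 : ℝ) ≤ n := Nat.cast_nonneg n
  have hn8 : (8 : ℝ) ≤ n := by exact_mod_cast (by omega : 8 ≤ n)
  have hEpos : (0 : ℝ) < E := by exact_mod_cast (by omega : 0 < E)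
  have hg : 0 < 1 - 1 / (E : ℝ) := by
    rw [sub_pos, div_lt_one hEpos]
    exact_mod_cast (by omega : 1 < E)
  obtain ⟨Y, m, phi, hY, h1, h2⟩ := hC p (w * u) (ρ * u) k (w * u - w * u / E) K L n
    (1 - 1 / (E : ℝ)) (((4 : ℝ) ^ (w * u))⁻¹) (Nat.mul_pos (by omega) (by omega)) hg
    (hgood u hku) hp2 hBn
  refine ⟨Y, m, phi, hY, ?_, ?_⟩
  · intro a
    obtain ⟨g1, g2, g3, g4⟩ := h1 a
    refine ⟨g1, g2.trans hKn, g3, fun x => le_trans ?_ (g4 x)⟩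
    apply mul_le_mul_of_nonneg_right _ (by positivity)
    linarith
  · intro M P hW
    obtain ⟨de, hde⟩ : ∃ de : ℝ, de = (2 : ℝ) ^ (-(min γ (1 / 4) * n)) := ⟨_, rfl⟩
    rw [← hde]
    have hde0 : 0 < de := by
      rw [hde]
      positivity
    have hdeγ : (2 : ℝ) ^ (-(γ * n)) ≤ de := by
      rw [hde]
      apply rp_le'
      have := mul_le_mul_of_nonneg_right (min_le_left γ (1 / 4)) hnR
      linarith
    obtain ⟨A, hA⟩ : ∃ A, A = univ.filter (fun a => CertifiedBy P (phi a) de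
      ((2 : ℝ) ^ (-(n : ℝ))) ((2 : ℝ) ^ ((1 - ε) * n))) := ⟨_, rfl⟩
    rw [← hA]
    rcases Nat.eq_zero_or_pos A.card with hA0 | hA0
    · rw [hA0]
      push_cast
      positivity
    have hYR : (0 : ℝ) < Y := by exact_mod_cast hY
    have hAR : (0 : ℝ) < A.card := by exact_mod_cast hA0
    have h3 : 2 ≤ ε / 2 * n := by
      have h4 : (N1 : ℝ) ≤ n := by exact_mod_cast (by omega : N1 ≤ n)
      have h5 : 4 / ε ≤ n := hN1.trans h4
      rw [div_le_iff₀ hε] at h5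
      linarith
    have key := h2 M P A de ((2 : ℝ) ^ (-(n : ℝ))) ((2 : ℝ) ^ ((1 - ε / 2) * n) / 3)
      ((2 : ℝ) ^ ((C + 1) * n) / 3) e0 hde0
      (by
        rw [hde]
        exact err_small' K L n (w * u) p _ hL hBn hp2 (min_le_right _ _) (by omega))
      (hth.trans (by linarith)) he0 he1 hpe (by positivity)
      (fun a ha => by
        rw [hA] at ha
        refine (mem_filter.1 ha).2.mono (three_le ?_)
        nlinarith)
      (hW.trans (three_le (by nlinarith))) hA0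
    have e1 : 3 * ((2 : ℝ) ^ ((C + 1) * n) / 3) = (2 : ℝ) ^ ((C + 1) * n) := by ring
    have e2 : 3 * ((2 : ℝ) ^ ((1 - ε / 2) * n) / 3) = (2 : ℝ) ^ ((1 - ε / 2) * n) := by ring
    rw [e1, e2] at key
    have hfin' := hfin (A.card : ℝ) (Y : ℝ) hAR hYR (le_trans
      (pow_le_pow_left₀ (by positivity) hdeγ 2) key)
    refine hfin'.trans (mul_le_mul_of_nonneg_right hdeγ hYR.le)

end Pool.Agent.H55.QO
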