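import Pool.Agent.H55.QO.RFD
import Pool.Agent.H78.KX.PAD

/-!
# MP_0f8dca_lc: row PAD, padding of the clauses for quantum relaxations
(after PADU of helper36 and PAD of helper78)
-/

set_option autoImplicit false

namespace Pool.Agent.H55.QO

open Finset Matrix
open Pool.Agent.H1.LP (Clause viol)
open Pool.Agent.H78.KX (ext ext_sat ext_card ext_card' sum_pad viol_pad pad)
open scoped ComplexOrder

/-- the cell of the restricted encoding -/
noncomputable def rcell {n r : ℕ} (E : Encoding (n + r)) : Finset (Fin n → Bool) :=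
  univ.filter (fun x => Fin.append x (fun _ : Fin r => false) ∈ E.cell)

theorem mem_rcell {n r : ℕ} (E : Encoding (n + r)) (x : Fin n → Bool) :
    x ∈ rcell E ↔ Fin.append x (fun _ : Fin r => false) ∈ E.cell := by
  unfold rcell
  rw [mem_filter]
  exact ⟨fun h => h.2, fun h => ⟨mem_univ _, h⟩⟩

/-- the restriction of an encoding -/
noncomputable def rest1 {n r : ℕ} (E : Encoding (n + r)) (h : (rcell E).Nonempty) : Encoding n where
  cell := rcell E
  nb := E.nb
  ord := E.ord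
  st := fun x => E.st (Fin.append x (fun _ => false))
  en := fun C x => (∑ s : Fin r → Bool, E.en (ext C s) (Fin.append x (fun _ => false))) / 2 ^ r
  ne := h
  psd := fun x hx i => E.psd _ ((mem_rcell E x).1 hx) i
  tr := fun x hx => E.tr _ ((mem_rcell E x).1 hx)
  bdd := by
    intro x hx C
    rw [abs_div, abs_of_pos (by positivity : (0 : ℝ) < 2 ^ r), div_le_one (by positivity)]
    refine (Finset.abs_sum_le_sum_abs _ _).trans ?_
    refine (Finset.sum_le_sum fun s _ => E.bdd _ ((mem_rcell E x).1 hx) (ext C s)).trans ?_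
    simp
  sound := by
    intro x hx C hC
    refine div_nonpos_of_nonpos_of_nonneg (Finset.sum_nonpos fun s _ => ?_) (by positivity)
    refine E.sound _ ((mem_rcell E x).1 hx) (ext C s) ?_
    rw [ext_sat]
    left
    simpa using hC

/-- a trivial encoding -/
noncomputable def triv (n : ℕ) : Encoding n where
  cell := univ
  nb := 1
  ord := fun _ => 1
  st := fun _ _ => 1
  en := fun _ _ => 0
  ne := ⟨fun _ => false, mem_univ _⟩
  psd := fun _ _ _ => Matrix.PosSemidef.one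
  tr := by
    intro x _
    simp
  bdd := by
    intro x _ C
    simp
  sound := by
    intro x _ C _
    exact le_rfl

open Classical in
/-- the restriction of an encoding -/
noncomputable def rest {n r : ℕ} (E : Encoding (n + r)) : Encoding n :=
  if h : (rcell E).Nonempty then rest1 E h else triv n

theorem size_nonneg {n : ℕ} (E : Encoding n) : 0 ≤ E.size :=
  Finset.sum_nonneg fun _ _ => by positivity

theorem triv_size (n : ℕ) : (triv n).size = 1 := by
  show ∑ i : Fin 1, (((fun _ => 1 : Fin 1 → ℕ) i : ℕ) : ℝ) = 1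
  simp

theorem rest_size_le {n r : ℕ} (E : Encoding (n + r)) : (rest E).size ≤ E.size := by
  unfold rest
  split_ifs with h
  · exact le_of_eq rfl
  · rw [triv_size]
    exact E.one_le_size

theorem rest_certifies {n r m : ℕ} (E : Encoding (n + r)) (hne : (rcell E).Nonempty)
    (phi : Fin m → Clause n) (de de' er er' : ℝ) (hd : de' ≤ de / 2 ^ r) (he : er / 2 ^ r ≤ er')
    (h : E.Certifies (pad r phi) de er) : (rest1 E hne).Certifies phi de' er' := by
  obtain ⟨H, h1, h2⟩ := h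
  have hpos : (0 : ℝ) < 2 ^ r := by positivity
  refine ⟨fun i => ((((2 : ℝ) ^ r)⁻¹ : ℝ) : ℂ) • H i, ?_, ?_⟩
  · intro x hx
    have h3 := h1 _ ((mem_rcell E x).1 hx)
    rw [sum_pad phi (fun C => E.en C (Fin.append x (fun _ => false)))] at h3
    have h4 : (∑ i, (((((2 : ℝ) ^ r)⁻¹ : ℝ) : ℂ) • H i * E.st (Fin.append x (fun _ => false)) i).trace) -
        ((∑ j, (∑ s : Fin r → Bool, E.en (ext (phi j) s) (Fin.append x (fun _ => false))) / 2 ^ r : ℝ) : ℂ) =
        ((((2 : ℝ) ^ r)⁻¹ : ℝ) : ℂ) * ((∑ i, (H i * E.st (Fin.append x (fun _ => false)) i).trace) -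
        ((∑ j, ∑ s : Fin r → Bool, E.en (ext (phi j) s) (Fin.append x (fun _ => false)) : ℝ) : ℂ)) := by
      rw [mul_sub, Finset.mul_sum]
      congr 1
      · apply Finset.sum_congr rfl
        intro i _
        rw [Matrix.smul_mul, Matrix.trace_smul, smul_eq_mul]
      · rw [← Complex.ofReal_mul, Finset.mul_sum]
        congr 1
        apply Finset.sum_congr rfl
        intro j _
        rw [div_eq_inv_mul]
    show ‖(∑ i, (((((2 : ℝ) ^ r)⁻¹ : ℝ) : ℂ) • H i * E.st (Fin.append x (fun _ => false)) i).trace) -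
        ((∑ j, (∑ s : Fin r → Bool, E.en (ext (phi j) s) (Fin.append x (fun _ => false))) / 2 ^ r : ℝ) : ℂ)‖
        ≤ er'
    rw [h4, norm_mul, Complex.norm_real, Real.norm_of_nonneg (inv_pos.mpr hpos).le]
    calc (2 ^ r)⁻¹ * ‖(∑ i, (H i * E.st (Fin.append x (fun _ => false)) i).trace) -
        ((∑ j, ∑ s : Fin r → Bool, E.en (ext (phi j) s) (Fin.append x (fun _ => false)) : ℝ) : ℂ)‖
        ≤ (2 ^ r)⁻¹ * er := mul_le_mul_of_nonneg_left h3 (inv_pos.mpr hpos).le
      _ = er / 2 ^ r := by rw [div_eq_inv_mul]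
      _ ≤ er' := he
  · have key : ∀ i : Fin E.nb, (((((2 : ℝ) ^ r)⁻¹ : ℝ) : ℂ) • H i -
        (de' : ℂ) • (1 : Matrix (Fin (E.ord i)) (Fin (E.ord i)) ℂ)).PosSemidef := ?_
    · exact key
    intro i
    have h3 : ((((2 : ℝ) ^ r)⁻¹ : ℝ) : ℂ) • H i - (de' : ℂ) • (1 : Matrix (Fin (E.ord i)) (Fin (E.ord i)) ℂ) =
        ((((2 : ℝ) ^ r)⁻¹ : ℝ) : ℂ) • (H i - (de : ℂ) • (1 : Matrix (Fin (E.ord i)) (Fin (E.ord i)) ℂ)) +
        ((de / 2 ^ r - de' : ℝ) : ℂ) • (1 : Matrix (Fin (E.ord i)) (Fin (E.ord i)) ℂ) := by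
      rw [smul_sub, smul_smul, sub_add_eq_add_sub, add_sub_assoc, sub_eq_add_neg, add_left_cancel_iff,
        ← sub_smul, ← neg_smul]
      congr 1
      push_cast
      ring
    rw [h3]
    apply Matrix.PosSemidef.add
    · apply Matrix.PosSemidef.smul (h2 i)
      exact_mod_cast (inv_pos.mpr hpos).le
    · apply Matrix.PosSemidef.smul Matrix.PosSemidef.one
      have : 0 ≤ de / 2 ^ r - de' := by linarith
      exact_mod_cast this

theorem certifiedBy_pad {n r m M : ℕ} (E : Fin M → Encoding (n + r)) (phi : Fin m → Clause n)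
    (de de' er er' S S' : ℝ) (hd : de' ≤ de / 2 ^ r) (he : er / 2 ^ r ≤ er') (hS : S ≤ S')
    (h : CertifiedBy E (pad r phi) de er S) :
    CertifiedBy (fun j => rest (E j)) phi de' er' S' := by
  classical
  obtain ⟨J, h1, h2, h3, hs⟩ := h
  have hrest : ∀ j, (hne : (rcell (E j)).Nonempty) → rest (E j) = rest1 (E j) hne := by
    intro j hne
    unfold rest
    rw [dif_pos hne]
  refine ⟨J.filter (fun j => (rcell (E j)).Nonempty), ?_, ?_, ?_, ?_⟩
  · intro j hj j' hj' hne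
    rw [mem_filter] at hj hj'
    have := h1 j hj.1 j' hj'.1 hne
    simp only [hrest j hj.2, hrest j' hj'.2]
    rw [Finset.disjoint_left] at this ⊢
    intro x hx hx'
    exact this ((mem_rcell _ x).1 hx) ((mem_rcell _ x).1 hx')
  · intro x
    obtain ⟨j, hj, hx⟩ := h2 (Fin.append x (fun _ => false))
    have hx' : x ∈ rcell (E j) := (mem_rcell _ x).2 hx
    refine ⟨j, mem_filter.2 ⟨hj, ⟨x, hx'⟩⟩, ?_⟩
    simp only [hrest j ⟨x, hx'⟩]
    exact hx'
  · intro j hj
    rw [mem_filter] at hj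
    simp only [hrest j hj.2]
    exact rest_certifies (E j) hj.2 phi de de' er er' hd he (h3 j hj.1)
  · calc ∑ j ∈ J.filter (fun j => (rcell (E j)).Nonempty), (rest (E j)).size
        ≤ ∑ j ∈ J.filter (fun j => (rcell (E j)).Nonempty), (E j).size :=
          Finset.sum_le_sum fun j _ => rest_size_le (E j)
      _ ≤ ∑ j ∈ J, (E j).size :=
          Finset.sum_le_sum_of_subset_of_nonneg (Finset.filter_subset _ _)
            (fun j _ _ => size_nonneg (E j))
      _ ≤ S' := hs.trans hS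

/-- the exponents -/
lemma pade_exp (c c' : ℝ) (r n1 N : ℕ) (hd : 0 < c - c') (hN : c * r / (c - c') ≤ N)
    (hn : N ≤ n1 + r) : c' * ((n1 + r : ℕ) : ℝ) ≤ c * n1 := by
  have h1 : (N : ℝ) ≤ ((n1 + r : ℕ) : ℝ) := by exact_mod_cast hn
  have h2 : c * r ≤ ((n1 + r : ℕ) : ℝ) * (c - c') := (div_le_iff₀ hd).1 (hN.trans h1)
  have h3 : ((n1 + r : ℕ) : ℝ) = n1 + r := by push_cast; ring
  rw [h3] at h2 ⊢
  nlinarith

theorem pf_PAD : S_PAD := by
  classical
  intro w k ε c c' C C' hwk hcc hCC hH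
  obtain ⟨r, rfl⟩ := Nat.exists_eq_add_of_le hwk
  obtain ⟨K, γ, hγ, n₀, hn₀⟩ := hH
  obtain ⟨N1, hN1⟩ := exists_nat_ge (c * r / (c - c'))
  obtain ⟨N3, hN3⟩ := exists_nat_ge (C * r / (C - C'))
  obtain ⟨N2, hN2⟩ := exists_nat_ge ((γ + 1) * r / (γ / 2))
  refine ⟨K * 2 ^ r, γ / 2, by positivity, n₀ + r + N1 + N2 + N3, ?_⟩
  intro n hn
  obtain ⟨n1, rfl⟩ : ∃ n1, n = n1 + r := ⟨n - r, by omega⟩
  obtain ⟨Y, m, phi, hY, hphi, hmain⟩ := hn₀ n1 (by omega)
  have hA := pade_exp c c' r n1 N1 (sub_pos.2 hcc) hN1 (by omega)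
  have hA' := pade_exp C C' r n1 N3 (sub_pos.2 hCC) hN3 (by omega)
  have hB : (γ + 1) * r ≤ ((n1 + r : ℕ) : ℝ) * (γ / 2) := by
    have h1 : (N2 : ℝ) ≤ ((n1 + r : ℕ) : ℝ) := by exact_mod_cast (by omega : N2 ≤ n1 + r)
    exact (div_le_iff₀ (by positivity)).1 (hN2.trans h1)
  have h3 : ((n1 + r : ℕ) : ℝ) = n1 + r := by push_cast; ring
  have hC : (2 : ℝ) ^ (-(γ * n1)) ≤ (2 : ℝ) ^ (-(γ / 2 * ((n1 + r : ℕ) : ℝ))) / 2 ^ r := by
    rw [le_div_iff₀ (by positivity), ← Real.rpow_natCast 2 r, ← Real.rpow_add (by norm_num)]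
    refine Real.rpow_le_rpow_of_exponent_le (by norm_num) ?_
    rw [h3] at hB ⊢
    nlinarith
  have hD : (2 : ℝ) ^ (-(γ * n1)) ≤ (2 : ℝ) ^ (-(γ / 2 * ((n1 + r : ℕ) : ℝ))) := by
    refine hC.trans (div_le_self (by positivity) ?_)
    exact one_le_pow₀ (by norm_num)
  have hE : (2 : ℝ) ^ (-(((n1 + r : ℕ)) : ℝ)) / 2 ^ r ≤ (2 : ℝ) ^ (-(n1 : ℝ)) := by
    refine (div_le_self (by positivity) (one_le_pow₀ (by norm_num))).trans ?_
    refine Real.rpow_le_rpow_of_exponent_le (by norm_num) ?_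
    rw [h3]
    have : (0 : ℝ) ≤ r := Nat.cast_nonneg r
    linarith
  refine ⟨Y, fun a => m a * 2 ^ r, fun a => pad r (phi a), hY, ?_, ?_⟩
  · intro a
    obtain ⟨h1, h2, h3, h4⟩ := hphi a
    refine ⟨Nat.mul_pos h1 (by positivity), ?_, ?_, ?_⟩
    · calc m a * 2 ^ r ≤ K * n1 * 2 ^ r := Nat.mul_le_mul_right _ h2
        _ = K * 2 ^ r * n1 := by ring
        _ ≤ K * 2 ^ r * (n1 + r) := Nat.mul_le_mul_left _ (by omega)
    · intro i
      unfold pad
      exact ⟨by rw [ext_card, (h3 _).1], by rw [ext_card', (h3 _).2]⟩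
    · intro x
      rw [viol_pad]
      refine le_trans (le_of_eq ?_) (h4 _)
      have h5 : (((m a * 2 ^ r : ℕ) : ℝ)) = m a * 2 ^ r := by push_cast; ring
      rw [h5, pow_add]
      field_simp
  · intro M E hP
    have h1 := hmain M (fun j => rest (E j)) ?_
    · refine le_trans (Nat.cast_le.2 (Finset.card_le_card fun a ha => ?_))
        (h1.trans (mul_le_mul_of_nonneg_right hD (by positivity)))
      rw [mem_filter] at ha ⊢
      refine ⟨ha.1, certifiedBy_pad E (phi a) _ _ _ _ _ _ hC ?_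
        (Real.rpow_le_rpow_of_exponent_le (by norm_num) hA) ha.2⟩
      exact hE
    · refine (Finset.sum_le_sum fun j _ => rest_size_le (E j)).trans ?_
      exact hP.trans (Real.rpow_le_rpow_of_exponent_le (by norm_num) hA')

end Pool.Agent.H55.QO
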