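import Pool.Agent.H91.UV.Final
import Pool.Agent.H76.QE.Asm2
import Pool.Agent.H32.QD.FRQ
import Pool.Agent.H86.QO.ABSO
import Pool.Agent.H7.QO.PARMO
import Pool.Agent.H39.SV.CELB
import Pool.Agent.H34.SV.CEL
import Pool.Agent.H56.SV.XXB
import Pool.Agent.H77.AV.MAS
import Pool.Agent.H55.AV.BALH
import Pool.Agent.H43.PS.AllB
import Pool.Agent.H63.PSD.LSH
import Pool.Agent.H41.QE.ABS3
import Pool.Agent.H16.QE.NUM3
import Pool.Agent.H11.KX.X3
import Pool.Agent.H77.KX.EXP3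
import Pool.Agent.H49.KX3.RHS3
import Pool.Agent.H39.KX.FRM3
import Pool.Agent.H55.QO.COREQ
import Pool.Agent.H55.QO.FINQ
import Pool.Agent.H55.QO.CORE3
import Pool.Agent.H55.QO.FIN3
import Pool.Agent.H55.QO.PAD
import Pool.Agent.H55.QO.LIM

/-! # Quantum relaxations with classical and quantum memory, size = dimension: the theorem
(MP_0f8dca_lc, helper55) -/

set_option autoImplicit false

namespace Pool.Agent.H55.QO

open Pool.Agent.H91.UV (famlas)

/-- the psd inequality on a cell -/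
theorem celb : Pool.Agent.H91.SV.S_CELB :=
  H39.SV.pf_CELB (H34.SV.pf_CEL H43.PS.All.sdp H43.PS.All.nrm Pool.Agent.H63.PSD.LSH
    H43.PS.All.trp) H56.SV.pf_XXB

/-- the core inequality for wide clauses -/
theorem coreq : S_COREQ :=
  pf_COREQ H86.QO.pf_ABSO celb H55.AV.pf_BALH H77.AV.pf_MAS H58.KX.pf_NPR H32.QD.pf_FRQ H88.LP.enc

/-- the large width case -/
theorem statementQW : StatementQW := pf_FINQ coreq Pool.Agent.H76.QE.goo H7.QO.pf_PARMO

/-- width 3 -/
theorem fin3 : S_FIN3 :=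
  pf_FIN3 (pf_CORE3 (H41.QE.pf_ABS3 H43.PS.All.sdp H43.PS.All.nrm H43.PS.All.trp)
    famlas.2 H39.KX.pf_PDA H2.LP.loc H39.KX.pf_FRM3) H16.QE.pf_NUM3
    (H11.KX.pf_X3 H77.KX.pf_EXP3 H49.KX3.pf_RHS3)

/-- Quantum relaxations of k-SAT with classical and quantum memory -/
theorem statementQ : StatementQ := pf_LIM pf_PAD statementQW fin3

end Pool.Agent.H55.QO
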