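import Pool.Agent.H1.LP.Stmt

/-!
# Quantum relaxations of k-SAT with classical and quantum memory: the statement, size = dimension
of the memory (MP_0f8dca_lc, helper55)
-/

set_option autoImplicit false

namespace Pool.Agent.H55.QO

open Pool.Agent.H1.LP (Clause viol)
open Filter Topology
open scoped ComplexOrder

/-- An encoding, on a set `cell` of assignments of `n` Boolean variables, by states of a finite
quantum system with classical and quantum parts.  The Hilbert space is the direct sum of spaces of
the dimensions `ord i` (the sectors), and the observables are block diagonal; a state is a family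
of positive semidefinite complex matrices of these orders with total trace one.  A memory of `b`
qubits has one sector of dimension `2 ^ b`, a memory of `a` bits and `b` qubits has `2 ^ a` sectors
of dimension `2 ^ b`.  `st x` is the state of the assignment `x`; `en C x` is the energy which the
encoding assigns to the clause `C` at `x`: any real number in `[-1, 1]`, not positive if `x`
satisfies `C` (for instance `1` if `x` violates `C` and `0` if not). -/
structure Encoding (n : ℕ) where
  /-- the assignments which are encoded -/
  cell : Finset (Fin n → Bool)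
  /-- the number of sectors -/
  nb : ℕ
  /-- the dimensions of the sectors -/
  ord : Fin nb → ℕ
  /-- the state of an assignment -/
  st : (Fin n → Bool) → (i : Fin nb) → Matrix (Fin (ord i)) (Fin (ord i)) ℂ
  /-- the energy of a clause at an assignment -/
  en : Clause n → (Fin n → Bool) → ℝ
  ne : cell.Nonempty
  psd : ∀ x ∈ cell, ∀ i, (st x i).PosSemidef
  tr : ∀ x ∈ cell, ∑ i, (st x i).trace = 1
  bdd : ∀ x ∈ cell, ∀ C, |en C x| ≤ 1
  sound : ∀ x ∈ cell, ∀ C : Clause n, C.Sat x → en C x ≤ 0

/-- The size of the encoding: the dimension of the Hilbert space of the memory (`2 ^ (a + b)` for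
`a` bits and `b` qubits). -/
noncomputable def Encoding.size {n : ℕ} (E : Encoding n) : ℝ := ∑ i, (E.ord i : ℝ)

/-- The encoding certifies the formula `phi` with margin `de`, up to the error `er`: there is an
observable `H` (a Hermitian matrix in each sector, which may depend on `phi` in any way) whose
expectation in the state of each encoded assignment is, up to the error `er`, the sum of the
energies of the clauses of `phi`, and all of whose eigenvalues are at least `de`. -/
def Encoding.Certifies {n m : ℕ} (E : Encoding n) (phi : Fin m → Clause n) (de er : ℝ) : Prop :=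
  ∃ H : (i : Fin E.nb) → Matrix (Fin (E.ord i)) (Fin (E.ord i)) ℂ,
    (∀ x ∈ E.cell, ‖∑ i, (H i * E.st x i).trace - ((∑ j, E.en (phi j) x : ℝ) : ℂ)‖ ≤ er) ∧
    ∀ i, (H i - (de : ℂ) • (1 : Matrix (Fin (E.ord i)) (Fin (E.ord i)) ℂ)).PosSemidef

/-- Encodings from the family `E` of total size at most `S` certify the formula `phi` with margin
`de`, up to the error `er`: some of the cells are disjoint and cover the cube, each of these
encodings certifies `phi`, and their sizes sum up to at most `S`.  The choice may depend on
`phi`. -/
def CertifiedBy {n M m : ℕ} (E : Fin M → Encoding n) (phi : Fin m → Clause n) (de er S : ℝ) :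
    Prop :=
  ∃ J : Finset (Fin M), (∀ j ∈ J, ∀ j' ∈ J, j ≠ j' → Disjoint (E j).cell (E j').cell) ∧
    (∀ x, ∃ j ∈ J, x ∈ (E j).cell) ∧ (∀ j ∈ J, (E j).Certifies phi de er) ∧
    ∑ j ∈ J, (E j).size ≤ S

open Classical in
/-- Quantum relaxations of size `2 ^ (c n)`, chosen after the formula from a family of total size
`2 ^ (C n)`, do not refute `k`-CNFs with `O(n)` clauses and with the gap `(1 - ε) / 2 ^ k`.  There
are `K` and `γ > 0` such that for all large `n` there is a finite list of CNFs with `n` variables,
at most `K n` clauses, all of width exactly `k`, every assignment violating at least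
`(1 - ε) m / 2 ^ k` of the `m` clauses, with the property: for every family of encodings of
assignments, of total size at most `2 ^ (C n)`, at most a fraction `2 ^ (- γ n)` of the formulas
of the list is certified with margin `2 ^ (- γ n)`, up to the error `2 ^ (- n)`, by encodings from
the family of total size at most `2 ^ (c n)`. -/
def HardQ (k : ℕ) (ε c C : ℝ) : Prop :=
  ∃ (K : ℕ) (γ : ℝ), 0 < γ ∧ ∃ n₀ : ℕ, ∀ n : ℕ, n₀ ≤ n →
    ∃ (Y : ℕ) (m : Fin Y → ℕ) (phi : (a : Fin Y) → Fin (m a) → Clause n), 0 < Y ∧
      (∀ a, 1 ≤ m a ∧ m a ≤ K * n ∧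
        (∀ i, (phi a i).card = k ∧ ((phi a i).image Prod.fst).card = k) ∧
        ∀ x, (1 - ε) * ((m a : ℝ) / 2 ^ k) ≤ (viol (phi a) x : ℝ)) ∧
      ∀ (M : ℕ) (E : Fin M → Encoding n), ∑ j, (E j).size ≤ (2 : ℝ) ^ (C * n) →
        ((Finset.univ.filter (fun a => CertifiedBy E (phi a) ((2 : ℝ) ^ (-(γ * n)))
          ((2 : ℝ) ^ (-(n : ℝ))) ((2 : ℝ) ^ (c * n)))).card : ℝ) ≤ (2 : ℝ) ^ (-(γ * n)) * Y

/-- Quantum relaxations of k-SAT: for every gap `ε > 0` there are exponents `c k`, positive for
all `k ≥ 3` and tending to `1`, and `C k ≥ c k`, tending to infinity, such that encodings of total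
size `2 ^ (c k n)` (`a` bits and `b` qubits with `a + b ≤ c k n`), chosen after the formula from a
family of total size `2 ^ (C k n)`, do not refute `k`-CNFs with `n` variables and `O(n)` clauses,
in which every assignment violates a fraction at least `(1 - ε) / 2 ^ k` of the clauses. -/
def StatementQ : Prop :=
  ∀ ε : ℝ, 0 < ε → ∃ c C : ℕ → ℝ, (∀ k, 3 ≤ k → 0 < c k ∧ c k ≤ C k) ∧ Tendsto c atTop (𝓝 1) ∧
    Tendsto C atTop atTop ∧ ∀ k, 3 ≤ k → HardQ k ε (c k) (C k)

end Pool.Agent.H55.QO
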