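import Pool.Agent.H91.QO.TargetsA
import Pool.Agent.H55.QE.BLK
import Pool.Agent.H55.QO.Stmt

/-!
# Quantum relaxations of k-SAT, size = dimension of the memory: targets (MP_0f8dca_lc, helper55)
-/

set_option autoImplicit false

namespace Pool.Agent.H55.QO

open Matrix Finset H43.PS
open Pool.Agent.H1.LP (Clause viol Loc Sys supp ip kk)
open Pool.Agent.H91.QO (NO)
open Pool.Agent.H91.SV (kc)

/-- CORE3: `S_ABS3 → T_LASF → S_LOC → S_FRM3 → S_CORE3` -/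
def S_CORE3 : Prop :=
  ∀ (B R t q n : ℕ) (ε : ℝ) (T : Fin R → Finset (Fin B)) (Ys : Sys 2 B R t (t / 3)),
  1 ≤ R → 9 ≤ t → 1 ≤ q → B * q ≤ n → (∀ i, (T i).card = 3) →
  (∀ i j, Ys.A i j = if j ∈ T i then 1 else 0) →
  (∀ z : Fin B → ZMod 2, (1 - ε) * ((R : ℝ) / 2) ≤
    ((univ.filter (fun i => ip (Ys.A i) z ≠ Ys.be i)).card : ℝ)) →
  ∃ (Y : ℕ) (m : Fin Y → ℕ) (phi : (a : Fin Y) → Fin (m a) → Clause n), 0 < Y ∧
    (∀ a, 1 ≤ m a ∧ m a ≤ 4 * R ∧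
      (∀ i, (phi a i).card = 3 ∧ ((phi a i).image Prod.fst).card = 3) ∧
      ∀ x, (1 - ε) * ((m a : ℝ) / 2 ^ 3) ≤ (viol (phi a) x : ℝ)) ∧
    ∀ (M : ℕ) (E : Fin M → Encoding n) (A : Finset (Fin Y)) (de er S W p σ : ℝ), 0 < de →
      4 * 2 ^ B * er ≤ de → 1 < p → p < 3 / 2 → 1 ≤ σ →
      (∀ a ∈ A, CertifiedBy E (phi a) de er S) → ∑ j, (E j).size ≤ W →
      de ^ 2 * ((A.card : ℝ) / Y) ≤ 96 * ((2 : ℝ) ^ B) ^ 2 * (R * (2 * q) ^ 3 * W + 1) ^ 2 *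
        XX 2 q p σ (2 * W + 1) (2 * (R * (2 * q) ^ 3 * W + 1)) ((2 * W + 1) ^ p) B
          ((t / 3 - 3) / 2)

/-- FIN3: `S_CORE3 → S_NUM3 → S_X3 → S_FIN3` -/
def S_FIN3 : Prop := ∀ ε : ℝ, 0 < ε → ∃ c : ℝ, 0 < c ∧ HardQ 3 ε c c

/-- the large width case -/
def StatementQW : Prop := ∀ C ε : ℝ, 0 < ε → ∃ k : ℕ, HardQ k ε (1 - ε) C

/-- PAD: padding of the clauses -/
def S_PAD : Prop := ∀ (w k : ℕ) (ε c c' C C' : ℝ), w ≤ k → c' < c → C' < C →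
  HardQ w ε c C → HardQ k ε c' C'

/-- LIM: `S_PAD → S_LIM` -/
def S_LIM : Prop := StatementQW → S_FIN3 → StatementQ

end Pool.Agent.H55.QO
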