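import Pool.Agent.H55.QO.Targets

/-!
# Quantum relaxations of k-SAT, size = dimension of the memory: the core inequality for wide clauses
(MP_0f8dca_lc, helper55)
-/

set_option autoImplicit false

namespace Pool.Agent.H55.QO

open Matrix Finset
open Pool.Agent.H1.LP (Clause viol)
open Pool.Agent.H91.QO (NO)
open Pool.Agent.H91.SV (kc)
open Pool.Agent.H76.QE (Good)

/-- COREQ: the core inequality, `N` blocks of `(K + 1) * (L + 1)` bits -/
def S_COREQ : Prop :=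
  ∀ (p N R k h K L n : ℕ) [Fact p.Prime] (g θ : ℝ), 1 ≤ R → 0 < g → Good p N R k h g θ →
    p ≤ 2 ^ (K + 1) → N * ((K + 1) * (L + 1)) ≤ n →
    ∃ (Y : ℕ) (m : Fin Y → ℕ) (phi : (a : Fin Y) → Fin (m a) → Clause n), 0 < Y ∧
      (∀ a, 1 ≤ m a ∧ m a ≤ NO R K L k ∧
        (∀ i, (phi a i).card = (K + 1) * (L + 1) * k ∧
          ((phi a i).image Prod.fst).card = (K + 1) * (L + 1) * k) ∧
        ∀ x, g * ((m a : ℝ) / 2 ^ ((K + 1) * (L + 1) * k)) ≤ (viol (phi a) x : ℝ)) ∧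
      ∀ (M : ℕ) (P : Fin M → Encoding n) (A : Finset (Fin Y)) (de er S W e0 : ℝ), 0 < de →
        4 * (p : ℝ) ^ N * er ≤ de → θ * R ≤ de / 4 → 0 < e0 → e0 < 1 / 3 →
        (p : ℝ) ≤ e0 * ((p ^ L : ℕ) : ℝ) → 0 < W →
        (∀ a ∈ A, CertifiedBy P (phi a) de er S) → ∑ j, (P j).size ≤ W → 0 < A.card →
        de ^ 2 ≤ 36 * ((p : ℝ) ^ N) ^ 2 * ((NO R K L k : ℝ) + 1) ^ 3 *
          kc p (p ^ L) N h e0 (3 * W) ((A.card : ℝ) / (Y * (3 * W))) * (3 * S + 1)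

end Pool.Agent.H55.QO
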